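import Pool.Agent.H37.HH.Targets4
import Pool.Agent.H3.CV.GC

/-!
# BQC: the mollified sum and the form with one coefficient (MP_347b49_nt)
-/

set_option autoImplicit false

open NumberField Complex Filter Topology MeasureTheory
open scoped ContDiff nonZeroDivisors

namespace Pool.Agent.H62.HH

open Pool.Agent.H33.HH Pool.Agent.H28.RC Pool.Agent.H37.CV

noncomputable section

section

variable {K : Type} [Field K] [NumberField K]

theorem finN (B : ℝ) : {I : Ideal (𝓞 K) | nm I ≤ B}.Finite := by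
  refine (Ideal.finite_setOfPred_absNorm_le (S := 𝓞 K) ⌊B⌋₊).subset ?_
  intro I hI
  exact Nat.le_floor hI

theorem finPM (M : ℝ) : {P : PrI K | np P ≤ M}.Finite := by
  refine Set.Finite.of_finite_image (f := Subtype.val) ?_ Subtype.val_injective.injOn
  refine (finN (K := K) M).subset ?_
  rintro _ ⟨P, hP, rfl⟩
  exact hP

theorem mem_PM (M : ℝ) (P : PrI K) : P ∈ PM K M ↔ np P ≤ M := by
  unfold PM
  rw [dif_pos (finPM M)]
  simp

theorem nm_pos {I : Ideal (𝓞 K)} (h : I ≠ ⊥) : 0 < nm I := by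
  unfold nm
  have : Ideal.absNorm I ≠ 0 := by rwa [Ne, Ideal.absNorm_eq_zero_iff]
  positivity

theorem DP_spec {P y : ℝ} {S : Finset (PrI K)} (hS : S ∈ DP K P y) :
    nS np S ≤ y ∧ Cp P (idS S) ∧ idS S ≠ ⊥ ∧ nm (idS S) = nS np S ∧ 0 < nS np S := by
  classical
  unfold DP DS at hS
  rw [Finset.mem_filter, Finset.mem_powerset] at hS
  have h0 := H3.CV.idS_ne S
  refine ⟨hS.2, ?_, h0, H3.CV.nm_idS S, ?_⟩
  · intro p hp
    have h1 := hS.1 (H3.CV.idS_le hp)
    unfold AP at h1
    have h2 := (Finset.mem_sdiff.1 h1).2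
    rw [mem_PM] at h2
    exact not_le.1 h2
  · rw [← H3.CV.nm_idS S]
    exact nm_pos h0

theorem Cp_mul {P : ℝ} {I J : Ideal (𝓞 K)} : Cp P (I * J) ↔ Cp P I ∧ Cp P J := by
  constructor
  · intro h
    exact ⟨fun p hp => h p (Ideal.mul_le_left.trans hp), fun p hp => h p (Ideal.mul_le_right.trans hp)⟩
  · rintro ⟨h1, h2⟩ p hp
    rcases (p.2.1.mul_le).1 hp with h | h
    · exact h1 p h
    · exact h2 p h

theorem gz_zero {G : ℝ → ℝ} (hG : IsG G) {Z t : ℝ} (hZ : 0 < Z) (h : 3 * Z ≤ t) :
    gz G Z t = 0 := by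
  unfold gz
  rw [hG.high (t / Z) ((le_div_iff₀ hZ).2 h), mul_zero]

/-- the condition -/
def cd (P : ℝ) (S : Finset (PrI K)) (n : Ideal (𝓞 K)) : Prop := n ≠ ⊥ ∧ Cp P n ∧ idS S ∣ n

open scoped Classical in
theorem reidx {E : Type*} [AddCommMonoid E] [TopologicalSpace E] [T2Space E] {P y Z : ℝ}
    (hZ : 0 < Z) (N : Finset (Ideal (𝓞 K))) (hN : ∀ n, n ∈ N ↔ nm n ≤ 3 * y * Z)
    {S : Finset (PrI K)} (hS : S ∈ DP K P y) (H : ℝ → Ideal (𝓞 K) → E)
    (hH : ∀ t n, 3 * Z ≤ t → H t n = 0) :
    ∑' m : NI K, (if Cp P m.1 then H (nm m.1) (idS S * m.1) else 0) =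
      ∑ n ∈ N, if cd P S n then H (nm n / nS np S) n else 0 := by
  obtain ⟨h1, h2, h3, h4, h5⟩ := DP_spec hS
  set g : Ideal (𝓞 K) → E := fun n => if cd P S n then H (nm n / nS np S) n else 0 with hg
  have hinj : Function.Injective fun m : NI K => idS S * m.1 := by
    intro a b hab
    exact Subtype.ext (mul_left_cancel₀ h3 hab)
  have e1 : ∀ m : NI K, (if Cp P m.1 then H (nm m.1) (idS S * m.1) else 0) = g (idS S * m.1) := by
    intro m
    rw [hg]
    dsimp only
    have h6 : nm (idS S * m.1) / nS np S = nm m.1 := by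
      rw [H3.CV.nm_mul, h4]
      field_simp
    by_cases hc : Cp P m.1
    · rw [if_pos hc, if_pos ⟨mul_ne_zero h3 m.2, Cp_mul.2 ⟨h2, hc⟩, dvd_mul_right _ _⟩, h6]
    · rw [if_neg hc, if_neg fun h => hc (Cp_mul.1 h.2.1).2]
  simp only [e1]
  rw [Function.Injective.tsum_eq (g := fun m : NI K => idS S * m.1) (f := g) hinj]
  · refine tsum_eq_sum ?_
    intro n hn
    rw [hg]
    dsimp only
    split_ifs with hc
    · refine hH _ _ ?_
      rw [hN, not_le] at hn
      rw [le_div_iff₀ h5]
      have : 3 * Z * nS np S ≤ 3 * y * Z := by nlinarith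
      linarith
    · rfl
  · intro n hn
    rw [Function.mem_support, hg] at hn
    dsimp only at hn
    have hc : cd P S n := by
      by_contra hc
      exact hn (if_neg hc)
    obtain ⟨m, hm⟩ := hc.2.2
    refine ⟨⟨m, ?_⟩, hm.symm⟩
    rintro rfl
    exact hc.1 (by rw [hm, Ideal.mul_bot])

open scoped Classical in
theorem cfm_eq (P y Z : ℝ) (G : ℝ → ℝ) (n : Ideal (𝓞 K)) :
    cfm P y Z G n = ∑ S ∈ DP K P y, if cd P S n then
      lm K P y S * nS np S ^ (-(1 / 2) : ℝ) * gz G Z (nm n / nS np S) else 0 := by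
  unfold cfm
  by_cases h : n ≠ ⊥ ∧ Cp P n
  · rw [if_pos h, Finset.sum_filter]
    refine Finset.sum_congr rfl fun S _ => ?_
    by_cases hd : idS S ∣ n
    · rw [if_pos hd, if_pos ⟨h.1, h.2, hd⟩]
    · rw [if_neg hd, if_neg fun h' => hd h'.2.2]
  · rw [if_neg h]
    symm
    refine Finset.sum_eq_zero fun S _ => ?_
    rw [if_neg fun h' => h ⟨h'.1, h'.2.1⟩]

end

/-- BQC -/
theorem pf_BQC : T_BQC := by
  classical
  intro K _ _ _ P y Z G hG hy hZ
  set N : Finset (Ideal (𝓞 K)) := (finN (K := K) (3 * y * Z)).toFinset with hNdef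
  have hN : ∀ n, n ∈ N ↔ nm n ≤ 3 * y * Z := by
    intro n
    rw [hNdef]
    simp
  have hsup : ∀ n : Ideal (𝓞 K), cfm P y Z G n ≠ 0 → n ≠ ⊥ ∧ Cp P n ∧ nm n ≤ 3 * y * Z := by
    intro n hn
    rw [cfm_eq] at hn
    obtain ⟨S, hS, h1⟩ := Finset.exists_ne_zero_of_sum_ne_zero hn
    have hc : cd P S n := by
      by_contra hc
      exact h1 (if_neg hc)
    rw [if_pos hc] at h1
    refine ⟨hc.1, hc.2.1, ?_⟩
    by_contra hlt
    rw [not_le] at hlt
    obtain ⟨h2, -, -, -, h5⟩ := DP_spec hS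
    apply h1
    rw [gz_zero hG hZ, mul_zero]
    rw [le_div_iff₀ h5]
    have : 3 * Z * nS np S ≤ 3 * y * Z := by nlinarith
    linarith
  have hsub : Function.support (cfm (K := K) P y Z G) ⊆ (N : Set (Ideal (𝓞 K))) := by
    intro n hn
    exact (hN n).2 (hsup n hn).2.2
  refine ⟨N.finite_toSet.subset hsub, hsup, ?_, ?_⟩
  · intro ψ hψ
    have e1 : Bv P y Z G ψ = ∑ S ∈ DP K P y,
        ((lm K P y S * nS np S ^ (-(1 / 2) : ℝ) : ℝ) : ℂ) *
          ∑ n ∈ N, if cd P S n then ((gz G Z (nm n / nS np S) : ℝ) : ℂ) * ψ n else 0 := by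
      unfold Bv
      rw [Finset.sum_mul]
      refine Finset.sum_congr rfl fun S hS => ?_
      rw [mul_assoc, ← tsum_mul_left]
      congr 1
      have h := reidx (E := ℂ) hZ N hN hS (fun t n => ((gz G Z t : ℝ) : ℂ) * ψ n) (by
        intro t n ht
        rw [gz_zero hG hZ ht]
        simp)
      rw [← h]
      refine tsum_congr fun m => ?_
      split_ifs with hc
      · rw [hψ]
        ring
      · rw [mul_zero]
    rw [e1, finsum_eq_sum_of_support_subset (s := N)]
    · simp only [cfm_eq]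
      simp only [Finset.mul_sum]
      rw [Finset.sum_comm]
      refine Finset.sum_congr rfl fun n _ => ?_
      push_cast
      rw [Finset.sum_mul]
      refine Finset.sum_congr rfl fun S _ => ?_
      split_ifs
      · push_cast
        ring
      · simp
    · intro n hn
      refine hsub ?_
      rw [Function.mem_support] at hn ⊢
      intro h0
      exact hn (by rw [h0]; simp)
  · intro f
    have e1 : Qf P y Z G f = ∑ S ∈ DP K P y, ∑ T ∈ DP K P y,
        lm K P y S * lm K P y T * (nS np S * nS np T) ^ (-(1 / 2) : ℝ) *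
          ∑ m ∈ N, if cd P S m then ∑ n ∈ N, (if cd P T n then (kap f m n : ℝ) *
            (gz G Z (nm m / nS np S) * gz G Z (nm n / nS np T)) else 0) else 0 := by
      unfold Qf
      refine Finset.sum_congr rfl fun S hS => Finset.sum_congr rfl fun T hT => ?_
      congr 1
      unfold Qab sumC
      have h1 : ∀ m : NI K, (∑' n : NI K, if Cp P n.1 then (kap f (idS S * m.1) (idS T * n.1) : ℝ) *
          (gz G Z (nm m.1) * gz G Z (nm n.1)) else 0) =
          ∑ n ∈ N, if cd P T n then (kap f (idS S * m.1) n : ℝ) *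
            (gz G Z (nm m.1) * gz G Z (nm n / nS np T)) else 0 := by
        intro m
        exact reidx (E := ℝ) hZ N hN hT (fun t n => (kap f (idS S * m.1) n : ℝ) *
          (gz G Z (nm m.1) * gz G Z t)) (by
          intro t n ht
          rw [gz_zero hG hZ ht]
          simp)
      simp only [h1]
      exact reidx (E := ℝ) hZ N hN hS (fun t m => ∑ n ∈ N, if cd P T n then (kap f m n : ℝ) *
            (gz G Z t * gz G Z (nm n / nS np T)) else 0) (by
          intro t n ht
          rw [gz_zero hG hZ ht]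
          simp)
    rw [e1]
    unfold QQ
    rw [finsum_eq_sum_of_support_subset (s := N ×ˢ N)]
    · rw [Finset.sum_product]
      simp only [cfm_eq]
      have h2 : ∀ m n : Ideal (𝓞 K), (kap f m n : ℝ) *
          (∑ S ∈ DP K P y, if cd P S m then
            lm K P y S * nS np S ^ (-(1 / 2) : ℝ) * gz G Z (nm m / nS np S) else 0) *
          (∑ T ∈ DP K P y, if cd P T n then
            lm K P y T * nS np T ^ (-(1 / 2) : ℝ) * gz G Z (nm n / nS np T) else 0) =
          ∑ S ∈ DP K P y, ∑ T ∈ DP K P y, lm K P y S * lm K P y T *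
            (nS np S * nS np T) ^ (-(1 / 2) : ℝ) * (if cd P S m then (if cd P T n then
            (kap f m n : ℝ) *
            (gz G Z (nm m / nS np S) * gz G Z (nm n / nS np T)) else 0) else 0) := by
        intro m n
        rw [mul_assoc, Finset.sum_mul_sum, Finset.mul_sum]
        refine Finset.sum_congr rfl fun S hS => ?_
        rw [Finset.mul_sum]
        refine Finset.sum_congr rfl fun T hT => ?_
        rw [Real.mul_rpow (DP_spec hS).2.2.2.2.le (DP_spec hT).2.2.2.2.le]
        split_ifs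
        · ring
        · ring
        · ring
        · ring
      simp only [h2]
      have h3 : ∀ F : Ideal (𝓞 K) → Ideal (𝓞 K) → Finset (PrI K) → Finset (PrI K) → ℝ,
          ∑ m ∈ N, ∑ n ∈ N, ∑ S ∈ DP K P y, ∑ T ∈ DP K P y, F m n S T =
          ∑ S ∈ DP K P y, ∑ T ∈ DP K P y, ∑ m ∈ N, ∑ n ∈ N, F m n S T := by
        intro F
        calc ∑ m ∈ N, ∑ n ∈ N, ∑ S ∈ DP K P y, ∑ T ∈ DP K P y, F m n S T
            = ∑ m ∈ N, ∑ S ∈ DP K P y, ∑ n ∈ N, ∑ T ∈ DP K P y, F m n S T :=
              Finset.sum_congr rfl fun m _ => Finset.sum_comm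
          _ = ∑ S ∈ DP K P y, ∑ m ∈ N, ∑ n ∈ N, ∑ T ∈ DP K P y, F m n S T := Finset.sum_comm
          _ = ∑ S ∈ DP K P y, ∑ m ∈ N, ∑ T ∈ DP K P y, ∑ n ∈ N, F m n S T :=
              Finset.sum_congr rfl fun S _ => Finset.sum_congr rfl fun m _ => Finset.sum_comm
          _ = ∑ S ∈ DP K P y, ∑ T ∈ DP K P y, ∑ m ∈ N, ∑ n ∈ N, F m n S T :=
              Finset.sum_congr rfl fun S _ => Finset.sum_comm
      refine Eq.trans ?_ (h3 fun m n S T => lm K P y S * lm K P y T *
            (nS np S * nS np T) ^ (-(1 / 2) : ℝ) * (if cd P S m then (if cd P T n then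
            (kap f m n : ℝ) *
            (gz G Z (nm m / nS np S) * gz G Z (nm n / nS np T)) else 0) else 0)).symm
      refine Finset.sum_congr rfl fun S hS => Finset.sum_congr rfl fun T hT => ?_
      rw [Finset.mul_sum]
      refine Finset.sum_congr rfl fun m _ => ?_
      split_ifs with hc
      · rw [Finset.mul_sum]
      · simp
    · intro p hp
      rw [Function.mem_support] at hp
      rw [Finset.mem_coe, Finset.mem_product]
      constructor
      · refine hsub ?_
        rw [Function.mem_support]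
        intro h0
        exact hp (by rw [h0]; simp)
      · refine hsub ?_
        rw [Function.mem_support]
        intro h0
        exact hp (by rw [h0]; simp)

end

end Pool.Agent.H62.HH
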