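import Pool.Agent.H33.HH.TC
import Pool.Agent.H49.CV.CX
import Pool.Agent.H27.CV.CB

/-!
# ERS: the sum of the error terms (MP_347b49_nt)
-/

set_option autoImplicit false

open NumberField Complex Filter Topology MeasureTheory
open scoped ContDiff nonZeroDivisors

namespace Pool.Agent.H62.HH

open Pool.Agent.H33.HH Pool.Agent.H28.RC Pool.Agent.H37.CV

noncomputable section

theorem two_le_np' {K : Type} [Field K] [NumberField K] (P : PrI K) : 2 ≤ np P := by
  unfold np nm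
  have h0 : Ideal.absNorm P.1 ≠ 0 := by
    rw [Ne, Ideal.absNorm_eq_zero_iff]
    exact P.2.2
  have h1 : Ideal.absNorm P.1 ≠ 1 := by
    rw [Ne, Ideal.absNorm_eq_one_iff]
    exact P.2.1.ne_top
  have : 2 ≤ Ideal.absNorm P.1 := by omega
  exact_mod_cast this

open scoped Classical in
theorem gg_empty {α : Type} (N : α → ℝ) (S T : Finset α) : gg N ∅ ∅ S T = nS N (S ∩ T) := by
  unfold gg
  have h2 : nS N (∅ : Finset α) = 1 := by
    unfold nS
    exact Finset.prod_empty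
  rw [Finset.inter_empty, Finset.inter_empty, Finset.union_empty, Finset.sdiff_empty, h2, one_mul,
    one_mul]

open scoped Classical in
theorem mem_inter' {α : Type} (S T : Finset α) (p : α) : p ∈ S ∩ T ↔ p ∈ S ∧ p ∈ T :=
  Finset.mem_inter

/-- ERS -/
theorem pf_ERS (h1 : T_GLk) : T_ERS := by
  classical
  intro K _ _ _ P θ δ hθ hδ
  obtain ⟨C0, hC0, hG, -⟩ := h1 K P
  have hN : ∀ p : PrI K, 2 ≤ np p := two_le_np'
  set C1 : ℝ := |rk K P| * θ + C0 with hC1
  have hC1' : 0 ≤ C1 := by positivity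
  refine ⟨C1 ^ 3 * (1 + 6 / δ) ^ 3, by positivity, ?_⟩
  intro Q hQ
  have hQ0 : 0 < Q := by linarith
  have hy : 1 ≤ Q ^ θ := Real.one_le_rpow hQ hθ.le
  have hlog : 0 ≤ Real.log Q := Real.log_nonneg hQ
  obtain ⟨-, hG1, hx⟩ := Pool.Agent.H49.CV.pf_CX (PrI K) np (AP K P (Q ^ θ)) (Q ^ θ) hN hy
  obtain ⟨-, hB⟩ := Pool.Agent.H27.CV.pf_CB (PrI K) np (AP K P (Q ^ θ)) ∅ ∅ (Q ^ θ) hN hy (by simp)
  have hG2 := (abs_le.1 (hG (Q ^ θ) hy)).2
  have hG3 : GS np (AP K P (Q ^ θ)) (Q ^ θ) ≤ C1 * (1 + Real.log Q) := by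
    rw [Real.log_rpow hQ0] at hG2
    have h2 : rk K P * (θ * Real.log Q) ≤ |rk K P| * θ * Real.log Q := by
      rw [mul_assoc]
      exact mul_le_mul_of_nonneg_right (le_abs_self _) (by positivity)
    have h3 : 0 ≤ C0 * Real.log Q := by positivity
    have h4 : 0 ≤ |rk K P| * θ := by positivity
    rw [hC1]
    nlinarith
  have hL : 1 + Real.log Q ≤ (1 + 6 / δ) * Q ^ (δ / 6) := by
    have h2 := Real.log_le_rpow_div hQ0.le (show 0 < δ / 6 by positivity)
    have h3 : 1 ≤ Q ^ (δ / 6) := Real.one_le_rpow hQ (by positivity)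
    have h4 : Q ^ (δ / 6) / (δ / 6) = 6 / δ * Q ^ (δ / 6) := by
      field_simp
    rw [h4] at h2
    nlinarith
  have hcube : GS np (AP K P (Q ^ θ)) (Q ^ θ) ^ 3 ≤ C1 ^ 3 * (1 + 6 / δ) ^ 3 * Q ^ (δ / 2) := by
    have h2 : GS np (AP K P (Q ^ θ)) (Q ^ θ) ≤ C1 * ((1 + 6 / δ) * Q ^ (δ / 6)) :=
      hG3.trans (mul_le_mul_of_nonneg_left hL hC1')
    have h3 := pow_le_pow_left₀ (by linarith : 0 ≤ GS np (AP K P (Q ^ θ)) (Q ^ θ)) h2 3
    refine h3.trans (le_of_eq ?_)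
    have h4 : (Q ^ (δ / 6)) ^ 3 = Q ^ (δ / 2) := by
      rw [← Real.rpow_natCast, ← Real.rpow_mul hQ0.le]
      congr 1
      push_cast
      ring
    rw [mul_pow, mul_pow, h4]
    ring
  have hgg : ∀ S T : Finset (PrI K), gg np ∅ ∅ S T = nS np (S ∩ T) := by
    intro S T
    rw [gg_empty]
    congr 1
    ext p
    rw [mem_inter', Finset.mem_inter]
  have hnS : ∀ S : Finset (PrI K), 0 ≤ nS np S := by
    intro S
    unfold nS
    exact Finset.prod_nonneg fun p _ => by linarith [hN p]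
  have hsub : ∀ S ∈ DP K P (Q ^ θ), |lm K P (Q ^ θ) S| ≤ 1 := by
    intro S hS
    refine hx S ?_
    unfold DP DS at hS
    exact Finset.mem_powerset.1 (Finset.mem_filter.1 hS).1
  calc ∑ S ∈ DP K P (Q ^ θ), ∑ T ∈ DP K P (Q ^ θ),
        |lm K P (Q ^ θ) S * lm K P (Q ^ θ) T| * Er Q δ S T
      ≤ ∑ S ∈ DP K P (Q ^ θ), ∑ T ∈ DP K P (Q ^ θ),
          Q ^ (2 - δ) * (gg np ∅ ∅ S T / (nS np S * nS np T)) := by
        refine Finset.sum_le_sum fun S hS => Finset.sum_le_sum fun T hT => ?_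
        rw [hgg]
        unfold Er
        have h2 : |lm K P (Q ^ θ) S * lm K P (Q ^ θ) T| ≤ 1 := by
          rw [abs_mul]
          exact mul_le_one₀ (hsub S hS) (abs_nonneg _) (hsub T hT)
        have h3 : 0 ≤ Q ^ (2 - δ) * (nS np (S ∩ T) / (nS np S * nS np T)) := by
          have := hnS (S ∩ T)
          have := hnS S
          have := hnS T
          positivity
        calc _ ≤ 1 * (Q ^ (2 - δ) * (nS np (S ∩ T) / (nS np S * nS np T))) :=
              mul_le_mul_of_nonneg_right h2 h3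
          _ = _ := one_mul _
    _ = Q ^ (2 - δ) * ∑ S ∈ DP K P (Q ^ θ), ∑ T ∈ DP K P (Q ^ θ),
          gg np ∅ ∅ S T / (nS np S * nS np T) := by
        rw [Finset.mul_sum]
        refine Finset.sum_congr rfl fun S _ => ?_
        rw [Finset.mul_sum]
    _ ≤ Q ^ (2 - δ) * (C1 ^ 3 * (1 + 6 / δ) ^ 3 * Q ^ (δ / 2)) := by
        refine mul_le_mul_of_nonneg_left ?_ (by positivity)
        refine le_trans hB ?_
        simpa using hcube
    _ = C1 ^ 3 * (1 + 6 / δ) ^ 3 * Q ^ (2 - δ / 2) := by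
        have h4 : Q ^ (2 - δ / 2) = Q ^ (2 - δ) * Q ^ (δ / 2) := by
          rw [← Real.rpow_add hQ0]
          congr 1
          ring
        rw [h4]
        ring

end

end Pool.Agent.H62.HH
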